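import Pool.Agent.H94.EGC.S1

/-!
# EGC, row LXM: the two lexicographic orders
-/

set_option autoImplicit false

namespace Pool.EGC

theorem t_lxm : LXMStmt := by
  intro n s t
  rw [MonomialOrder.lex_le_iff, le_iff_eq_or_lt]
  constructor
  · rintro (h | h)
    · exact Or.inl (toLex.injective h)
    · obtain ⟨i, hi, hi'⟩ := Finsupp.lex_def.1 h
      exact Or.inr ⟨i, fun j hj => hi j hj, hi'⟩
  · rintro (h | ⟨i, hi, hi'⟩)
    · exact Or.inl (congrArg toLex h)
    · refine Or.inr ?_
      exact Finsupp.lex_def.2 ⟨i, fun j hj => hi j hj, hi'⟩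

end Pool.EGC
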